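import Pool.Agent.Lib.MP_416699_nt.Final

/-!
MP_416699_nt, step towards Q1: for every `n ≥ 2` the Misiurewicz polynomial `G_{m,n}` is
irreducible over `ℚ` for all sufficiently large `m`.
-/

open Polynomial

namespace Pool.Agent.Results.MP_416699_nt.IrreducibleLargeM

open Pool.Agent.Lib.MP_416699_nt

theorem result : ∀ n : ℕ, 2 ≤ n → ∃ M : ℕ, ∀ m : ℕ, M ≤ m →
    Irreducible ((G m n).map (Int.castRingHom ℚ)) := by
  intro n hn
  obtain ⟨M, hM⟩ := irreducible_large hn
  refine ⟨max M 1, fun m hm => ?_⟩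
  have hm0 : m ≠ 0 := by
    have : 1 ≤ m := (le_max_right _ _).trans hm
    lia
  have h1 := hM m ((le_max_left _ _).trans hm)
  exact ((G_monic hm0 (by lia)).irreducible_iff_irreducible_map_fraction_map (K := ℚ)).1 h1

end Pool.Agent.Results.MP_416699_nt.IrreducibleLargeM
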