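import Pool.Agent.Lib.MP_416699_nt.Final

/-!
MP_416699_nt, partial answer to Q1: for every `n ≥ 2` the statement of Q1 holds for all
sufficiently large `m` (no irreducibility hypothesis).
-/

open Polynomial

namespace Pool.Agent.Results.MP_416699_nt.NonUnitLargeM

open Pool.Agent.Lib.MP_416699_nt

/-- An algebraic unit: an algebraic integer whose inverse is an algebraic integer. -/
def IsAlgebraicUnit (x : ℂ) : Prop := IsIntegral ℤ x ∧ ∃ y : ℂ, IsIntegral ℤ y ∧ x * y = 1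

/-- The division in the definition of `G m n` is exact. -/
lemma G_exact {m n : ℕ} (hm : m ≠ 0) (hn : n ≠ 0) : G m n * den m n = num m n := G_mul_den hm hn

theorem result : ∀ n : ℕ, 2 ≤ n → ∃ M : ℕ, ∀ m : ℕ, M ≤ m → ∀ ℓ : ℕ, ℓ ∣ n → ℓ < n →
    ∀ c₀ : ℂ, aeval c₀ (G m n) = 0 → ¬ IsAlgebraicUnit (aeval c₀ (G m ℓ)) := by
  intro n hn
  obtain ⟨M, hM⟩ := nonunit_large hn
  exact ⟨M, fun m hm ℓ h1 h2 c₀ hc h => hM m hm ℓ h1 h2 c₀ hc h.2⟩

end Pool.Agent.Results.MP_416699_nt.NonUnitLargeM
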