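import Pool.Agent.Lib.MP_416699_nt.TrI

/-!
MP_416699_nt, partial answer to Q1: for `m = 2` and every proper divisor `ℓ` of `n`, and in three
further ranges of `(m, n, ℓ)`, some root `c₀` of `G m n` makes `G m ℓ (c₀)` a non-unit; if `G m n`
is irreducible over `ℚ`, every root does.
-/

open Polynomial

namespace Pool.Agent.Results.MP_416699_nt.SomeRootNonUnit

open Pool.Agent.Lib.MP_416699_nt

/-- An algebraic unit: an algebraic integer whose inverse is an algebraic integer. -/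
def IsAlgebraicUnit (x : ℂ) : Prop := IsIntegral ℤ x ∧ ∃ y : ℂ, IsIntegral ℤ y ∧ x * y = 1

/-- The division in the definition of `G m n` is exact. -/
lemma G_exact {m n : ℕ} (hm : m ≠ 0) (hn : n ≠ 0) : G m n * den m n = num m n := G_mul_den hm hn

theorem result (m n ℓ : ℕ) (hm : 2 ≤ m) (hdvd : ℓ ∣ n) (hlt : ℓ < n)
    (h : m = 2 ∨ (m = 3 ∧ ¬ 3 ∣ ℓ) ∨
      (4 ≤ m ∧ 2 ≤ ℓ ∧ ∀ p : ℕ, p.Prime → p ∣ ℓ → (m - 2) * 2 ^ (m - 1) < p) ∨
      2 * (G m ℓ).natDegree < (n / ℓ).totient) :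
    (∃ c₀ : ℂ, aeval c₀ (G m n) = 0 ∧ ¬ IsAlgebraicUnit (aeval c₀ (G m ℓ))) ∧
    (Irreducible ((G m n).map (Int.castRingHom ℚ)) → ∀ c₀ : ℂ, aeval c₀ (G m n) = 0 →
      ¬ IsAlgebraicUnit (aeval c₀ (G m ℓ))) := by
  obtain ⟨q, rfl⟩ := hdvd
  have hℓ : ℓ ≠ 0 := by rintro rfl; simp at hlt
  have hq : 2 ≤ q := by
    by_contra hcon
    have h2 : q ≤ 1 := by lia
    have h3 : ℓ * q ≤ ℓ * 1 := Nat.mul_le_mul_left ℓ h2
    lia
  have key : ∀ u v : ℤ[X], u * G m (ℓ * q) + v * G m ℓ ≠ 1 := by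
    rw [Nat.mul_div_cancel_left _ (Nat.pos_of_ne_zero hℓ)] at h
    rcases h with h | h | h | h
    · obtain ⟨h1, h2, h3⟩ := good_of_cases hℓ (Or.inl h)
      exact not_comax h1 hℓ h2 h3 hq
    · obtain ⟨h1, h2, h3⟩ := good_of_cases hℓ (Or.inr (Or.inl h))
      exact not_comax h1 hℓ h2 h3 hq
    · obtain ⟨h1, h2, h3⟩ := good_of_cases hℓ (Or.inr (Or.inr h))
      exact not_comax h1 hℓ h2 h3 hq
    · exact not_comax_totient hm hℓ h
  obtain ⟨⟨c, hc, h1⟩, h2⟩ := root_of_not_comax (by lia) hℓ (by lia) key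
  exact ⟨⟨c, hc, fun h3 => h1 h3.2⟩, fun h3 c hc h4 => h2 h3 c hc h4.2⟩

end Pool.Agent.Results.MP_416699_nt.SomeRootNonUnit
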