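import Pool.Agent.Lib.MP_416699_nt.TrZ

/-!
MP_416699_nt, partial answer to Q1, uniform in `ℓ`: if `3 ≤ m ≤ ℓ`, `ℓ ∣ n` and
`φ(n / ℓ) ≥ 2 ^ (m - 1)`, then `G m n` has an irreducible factor over `ℚ` at all roots `c₀` of which
`G m ℓ (c₀)` is a non-unit.
-/

open Polynomial

namespace Pool.Agent.Results.MP_416699_nt.UniformRatio

open Pool.Agent.Lib.MP_416699_nt

/-- An algebraic unit: an algebraic integer whose inverse is an algebraic integer. -/
def IsAlgebraicUnit (x : ℂ) : Prop := IsIntegral ℤ x ∧ ∃ y : ℂ, IsIntegral ℤ y ∧ x * y = 1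

/-- The division in the definition of `G m n` is exact. -/
lemma G_exact {m n : ℕ} (hm : m ≠ 0) (hn : n ≠ 0) : G m n * den m n = num m n := G_mul_den hm hn

/-- The minimal polynomial of a root with a non-unit value. -/
lemma factor_of_root {F h : ℤ[X]} (hF : F.Monic) {c : ℂ} (hc : aeval c F = 0)
    (hn : ¬ ∃ y : ℂ, IsIntegral ℤ y ∧ aeval c h * y = 1) :
    ∃ g : ℚ[X], Irreducible g ∧ g ∣ F.map (Int.castRingHom ℚ) ∧
      ∀ c₀ : ℂ, aeval c₀ g = 0 → ¬ IsAlgebraicUnit (aeval c₀ h) := by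
  have hint : IsIntegral ℤ c := ⟨F, hF, hc⟩
  have hm : (minpoly ℤ c).Monic := minpoly.monic hint
  have hirr : Irreducible (minpoly ℤ c) := minpoly.irreducible hint
  refine ⟨(minpoly ℤ c).map (Int.castRingHom ℚ), ?_, ?_, ?_⟩
  · exact (hm.irreducible_iff_irreducible_map_fraction_map (K := ℚ)).1 hirr
  · exact Polynomial.map_dvd _ (minpoly.isIntegrallyClosed_dvd hint hc)
  · rintro c₀ h0 ⟨-, y, hy, hhy⟩
    have h1 : aeval c₀ (minpoly ℤ c) = 0 := by
      have h2 : aeval c₀ ((minpoly ℤ c).map (algebraMap ℤ ℚ)) = 0 := h0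
      rwa [aeval_map_algebraMap] at h2
    obtain ⟨u, v, huv⟩ := bezout_of_unit hm hirr h1 hy hhy
    apply hn
    have h4 : IsIntegral ℤ (aeval c v) := by
      have h5 : aeval c v = algebraMap OO ℂ (aeval (⟨c, hint⟩ : OO) v) :=
        aeval_algebraMap_apply ℂ (⟨c, hint⟩ : OO) v
      rw [h5]
      exact (aeval (⟨c, hint⟩ : OO) v).2
    refine ⟨aeval c v, h4, ?_⟩
    have h3 := congrArg (aeval c) huv
    rw [map_add, map_mul, map_mul, minpoly.aeval, mul_zero, zero_add, map_one] at h3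
    rw [mul_comm]
    exact h3

theorem result (m n ℓ : ℕ) (hm : 3 ≤ m) (hml : m ≤ ℓ) (hdvd : ℓ ∣ n)
    (h : 2 ^ (m - 1) ≤ (n / ℓ).totient) :
    ∃ g : ℚ[X], Irreducible g ∧ g ∣ (G m n).map (Int.castRingHom ℚ) ∧
      ∀ c₀ : ℂ, aeval c₀ g = 0 → ¬ IsAlgebraicUnit (aeval c₀ (G m ℓ)) := by
  obtain ⟨q, rfl⟩ := hdvd
  have hm0 : m ≠ 0 := by lia
  have hℓ : ℓ ≠ 0 := by lia
  rw [Nat.mul_div_cancel_left _ (Nat.pos_of_ne_zero hℓ)] at h
  have hq : q ≠ 0 := by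
    rintro rfl
    have h1 : 0 < 2 ^ (m - 1) := by positivity
    rw [Nat.totient_zero] at h
    lia
  obtain ⟨⟨c, hc, h1⟩, -⟩ := root_of_not_comax hm0 hℓ hq (not_comax_uniform hm hml h)
  exact factor_of_root (G_monic hm0 (mul_ne_zero hℓ hq)) hc h1

end Pool.Agent.Results.MP_416699_nt.UniformRatio
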